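import Mathlib

-- part Pool.Agent.Lib.MP_299528_co.GW.A
section

/-! Generic tools for the counterexample: transport, degrees, counting, zero sums. -/

namespace Pool.Agent.GW

open Finset

/-- The inequality for a subset of an ordered additive monoid. -/
def Ineq {P : Type} [AddCommMonoid P] [PartialOrder P] (d : ℕ) (S : Set P) : Prop :=
  d * {x | ∃ h, h ∉ S ∧ x ≤ h}.ncard ≤
    {x | x ∈ S ∧ x ≠ 0 ∧ ∀ a ∈ S, ∀ b ∈ S, a + b = x → a = 0 ∨ b = 0}.ncard *
      {x | x ∈ S ∧ ∃ h, h ∉ S ∧ x ≤ h}.ncard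

theorem transport {P Q : Type} [AddCommMonoid P] [PartialOrder P] [AddCommMonoid Q]
    [PartialOrder Q] (φ : Q ≃+ P) (hφ : ∀ x y, φ x ≤ φ y ↔ x ≤ y) {d : ℕ} {S : Set P}
    (H : Ineq d (φ ⁻¹' S)) : Ineq d S := by
  unfold Ineq at H ⊢
  have k : ∀ T : Set P, (φ ⁻¹' T).ncard = T.ncard := fun T =>
    Set.ncard_preimage_of_injective_subset_range φ.injective (by simp)
  have e0 : ∀ x, (∃ h, h ∉ φ ⁻¹' S ∧ x ≤ h) ↔ ∃ h, h ∉ S ∧ φ x ≤ h := fun x =>
    ⟨fun ⟨h, a, b⟩ => ⟨φ h, a, (hφ _ _).2 b⟩, fun ⟨h, a, b⟩ =>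
      ⟨φ.symm h, by simpa using a, (hφ _ _).1 (by simpa using b)⟩⟩
  have e1 : {x | ∃ h, h ∉ φ ⁻¹' S ∧ x ≤ h} = φ ⁻¹' {x | ∃ h, h ∉ S ∧ x ≤ h} :=
    Set.ext fun x => e0 x
  have e2 : {x | x ∈ φ ⁻¹' S ∧ ∃ h, h ∉ φ ⁻¹' S ∧ x ≤ h} =
      φ ⁻¹' {x | x ∈ S ∧ ∃ h, h ∉ S ∧ x ≤ h} := Set.ext fun x => and_congr Iff.rfl (e0 x)
  have e3 : {x | x ∈ φ ⁻¹' S ∧ x ≠ 0 ∧ ∀ a ∈ φ ⁻¹' S, ∀ b ∈ φ ⁻¹' S, a + b = x → a = 0 ∨ b = 0} =
      φ ⁻¹' {x | x ∈ S ∧ x ≠ 0 ∧ ∀ a ∈ S, ∀ b ∈ S, a + b = x → a = 0 ∨ b = 0} := by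
    refine Set.ext fun x => and_congr Iff.rfl (and_congr (by simp) ⟨fun h a ha b hb e => ?_,
      fun h a ha b hb e => ?_⟩)
    · have := h (φ.symm a) (by simpa using ha) (φ.symm b) (by simpa using hb)
        (by rw [← map_add, e]; simp)
      simpa using this
    · have := h (φ a) ha (φ b) hb (by rw [← map_add, e])
      simpa using this
  rwa [e1, e2, e3, k, k, k] at H

/-- The abstract shape of the counterexample. -/
theorem shape {P : Type} [AddCommMonoid P] [PartialOrder P] (hI : ∀ h : P, (Set.Iic h).Finite)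
    {S J : Set P} {G X : Finset P} {d : ℕ} (hS : ∀ x ∈ S, x = 0 ∨ x ∈ G ∨ x ∈ J) (hJ : J ⊆ S)
    (up : ∀ x ∈ J, ∀ y, x ≤ y → y ∈ J) (fin : Sᶜ.Finite)
    (dec : ∀ y ∈ J, ∃ a ∈ S, ∃ b ∈ S, a + b = y ∧ a ≠ 0 ∧ b ≠ 0) (hX : ∀ x ∈ X, x ∉ S)
    (H : Ineq d S) : d * X.card ≤ (G.card + 1) ^ 2 := by
  classical
  unfold Ineq at H
  have f : {x | ∃ h, h ∉ S ∧ x ≤ h}.Finite :=
    (fin.biUnion fun h _ => hI h).subset fun x ⟨h, a, b⟩ =>
      Set.mem_biUnion (x := h) a b
  have c : X.card ≤ {x | ∃ h, h ∉ S ∧ x ≤ h}.ncard := by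
    rw [← Set.ncard_coe_finset]
    exact Set.ncard_le_ncard (fun x hx => ⟨x, hX x hx, le_rfl⟩) f
  have e : {x | x ∈ S ∧ x ≠ 0 ∧ ∀ a ∈ S, ∀ b ∈ S, a + b = x → a = 0 ∨ b = 0}.ncard ≤
      G.card + 1 := by
    refine le_trans ?_ (Nat.le_succ _)
    rw [← Set.ncard_coe_finset]
    refine Set.ncard_le_ncard (fun x ⟨h1, h2, h3⟩ => ?_) G.finite_toSet
    rcases hS x h1 with h | h | h
    · exact absurd h h2
    · exact h
    · obtain ⟨a, ha, b, hb, e, a0, b0⟩ := dec x h
      exact absurd (h3 a ha b hb e) (by tauto)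
  have n : {x | x ∈ S ∧ ∃ h, h ∉ S ∧ x ≤ h}.ncard ≤ G.card + 1 := by
    refine le_trans ?_ (card_insert_le 0 G)
    rw [← Set.ncard_coe_finset]
    refine Set.ncard_le_ncard (fun x ⟨h1, h, h2, h3⟩ => ?_) (insert 0 G).finite_toSet
    rcases hS x h1 with h | h | h'
    · simp [h]
    · simp [h]
    · exact absurd (hJ (up x h' h h3)) h2
  calc d * X.card ≤ _ := Nat.mul_le_mul_left d c
    _ ≤ _ := H
    _ ≤ (G.card + 1) * (G.card + 1) := Nat.mul_le_mul e n
    _ = _ := (pow_two _).symm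

section deg
variable {κ : Type} [Fintype κ] [DecidableEq κ]

/-- Total degree. -/
def dg (a : κ → ℕ) : ℕ := ∑ i, a i

omit [DecidableEq κ] in
theorem dg_add (a b : κ → ℕ) : dg (a + b) = dg a + dg b := sum_add_distrib

omit [DecidableEq κ] in
theorem dg_zero : dg (0 : κ → ℕ) = 0 := by simp [dg]

omit [DecidableEq κ] in
theorem dg_mono {a b : κ → ℕ} (h : a ≤ b) : dg a ≤ dg b := sum_le_sum fun i _ => h i

theorem dg_single (i : κ) : dg (Pi.single i 1 : κ → ℕ) = 1 := by simp [dg]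

omit [DecidableEq κ] in
theorem eq_zero_of_dg {a : κ → ℕ} (h : dg a = 0) : a = 0 :=
  funext fun i => sum_eq_zero_iff.1 h i (mem_univ i)

theorem exists_single {a : κ → ℕ} (h : dg a ≠ 0) :
    ∃ (i : κ) (c : κ → ℕ), a = (Pi.single i 1 : κ → ℕ) + c := by
  obtain ⟨i, -, hi⟩ := exists_ne_zero_of_sum_ne_zero h
  have : (Pi.single i 1 : κ → ℕ) ≤ a := fun j => by
    by_cases e : j = i
    · subst e; simp; omega
    · simp [e]
  obtain ⟨c, hc⟩ := exists_add_of_le this
  exact ⟨i, c, hc⟩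

theorem exists_tuple {k : ℕ} {a : κ → ℕ} (h : k ≤ dg a) :
    ∃ (w : Fin k → κ) (c : κ → ℕ), a = ∑ j, Pi.single (w j) 1 + c := by
  induction k generalizing a with
  | zero => exact ⟨Fin.elim0, a, by simp⟩
  | succ k ih =>
    obtain ⟨i, c, rfl⟩ := exists_single (a := a) (by omega)
    rw [dg_add, dg_single] at h
    obtain ⟨w, c', rfl⟩ := ih (a := c) (by omega)
    exact ⟨Fin.cons i w, c', by rw [Fin.sum_univ_succ, add_assoc]; simp⟩

theorem dg_tuple {ι : Type} (I : Finset ι) (w : ι → κ) :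
    dg (∑ j ∈ I, Pi.single (w j) 1 : κ → ℕ) = I.card := by
  classical
  induction I using Finset.induction_on with
  | empty => simp [dg]
  | insert j I hj ih => rw [sum_insert hj, dg_add, dg_single, ih, card_insert_of_notMem hj, add_comm]

theorem exists_split {k : ℕ} {a : κ → ℕ} (h : k ≤ dg a) : ∃ b c, a = b + c ∧ dg b = k := by
  obtain ⟨w, c, e⟩ := exists_tuple h
  exact ⟨_, c, e, by rw [dg_tuple]; simp⟩

theorem eq_single {a : κ → ℕ} (h : dg a = 1) : ∃ i, a = Pi.single i 1 := by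
  obtain ⟨i, c, rfl⟩ := exists_single (a := a) (by omega)
  rw [dg_add, dg_single] at h
  exact ⟨i, by rw [eq_zero_of_dg (a := c) (by omega), add_zero]⟩

theorem card_le_deg (k : ℕ) : ∃ T : Finset (κ → ℕ), T.card ≤ (Fintype.card κ + 1) ^ k ∧
    ∀ a, dg a ≤ k → a ∈ T := by
  induction k with
  | zero => exact ⟨{0}, by simp, fun a h => by simpa using eq_zero_of_dg (by omega)⟩
  | succ k ih =>
    obtain ⟨T, h1, h2⟩ := ih
    refine ⟨T ∪ ((univ : Finset κ) ×ˢ T).image fun p => Pi.single p.1 1 + p.2, ?_, fun a h => ?_⟩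
    · refine (card_union_le _ _).trans ((Nat.add_le_add_left card_image_le _).trans ?_)
      rw [card_product, card_univ, pow_succ]
      nlinarith
    · by_cases e : dg a ≤ k
      · exact mem_union_left _ (h2 a e)
      · obtain ⟨i, c, rfl⟩ := exists_single (a := a) (by omega)
        rw [dg_add, dg_single] at h
        exact mem_union_right _ (mem_image.2 ⟨(i, c), by simpa using h2 c (by omega), rfl⟩)

theorem card_eq_deg (k : ℕ) : ∃ T : Finset (κ → ℕ),
    k.factorial * T.card ≤ (Fintype.card κ + k) ^ k ∧ ∀ a, a ∈ T ↔ dg a = k := by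
  refine ⟨((univ : Finset κ).finsuppAntidiag k).image fun f : κ →₀ ℕ => (⇑f : κ → ℕ), ?_,
    fun a => ?_⟩
  · refine (Nat.mul_le_mul_left _ card_image_le).trans ?_
    rw [card_finsuppAntidiag_nat_eq_choose, card_univ, ← Nat.descFactorial_eq_factorial_mul_choose]
    exact (Nat.descFactorial_le_pow _ _).trans (Nat.pow_le_pow_left (Nat.sub_le _ _) _)
  · rw [mem_image]
    constructor
    · rintro ⟨f, hf, rfl⟩
      exact (mem_finsuppAntidiag.1 hf).1
    · intro h
      exact ⟨Finsupp.equivFunOnFinite.symm a, mem_finsuppAntidiag.2 ⟨h, subset_univ _⟩, rfl⟩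

end deg

section col
variable {A Z : Type} [AddCommGroup A] [Fintype A] [DecidableEq A] [Fintype Z] [DecidableEq Z]

/-- The colour sum of a monomial. -/
def col (χ : Z → A) (b : Z → ℕ) : A := ∑ z, b z • χ z

omit [Fintype A] [DecidableEq A] [DecidableEq Z] in
theorem col_add (χ : Z → A) (a b : Z → ℕ) : col χ (a + b) = col χ a + col χ b := by
  simp [col, add_smul, sum_add_distrib]

omit [Fintype A] [DecidableEq A] [DecidableEq Z] in
theorem col_zero (χ : Z → A) : col χ 0 = 0 := by simp [col]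

omit [Fintype A] [DecidableEq A] in
theorem col_single (χ : Z → A) (z : Z) : col χ (Pi.single z 1) = χ z := by
  rw [col, sum_eq_single z] <;> simp +contextual

omit [Fintype A] [DecidableEq A] in
theorem col_tuple (χ : Z → A) {ι : Type} (I : Finset ι) (w : ι → Z) :
    col χ (∑ j ∈ I, Pi.single (w j) 1) = ∑ j ∈ I, χ (w j) := by
  classical
  induction I using Finset.induction_on with
  | empty => simp [col]
  | insert j I hj ih => rw [sum_insert hj, sum_insert hj, col_add, col_single, ih]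

omit [Fintype A] [DecidableEq A] in
theorem eq_of_add (h2 : ∀ a : A, a + a = 0) {a b : A} (h : a + b = 0) : a = b := by
  rw [← add_zero a, ← h2 b, ← add_assoc, h, zero_add]

omit [Fintype A] [DecidableEq A] in
theorem sum_symm (h2 : ∀ a : A, a + a = 0) {ι : Type} [DecidableEq ι] {I I' : Finset ι}
    {g : ι → A} (h : ∑ j ∈ I, g j = ∑ j ∈ I', g j) : ∑ j ∈ symmDiff I I', g j = 0 := by
  have a := sum_sdiff (f := g) (inter_subset_left (s₁ := I) (s₂ := I'))
  have b := sum_sdiff (f := g) (inter_subset_right (s₁ := I) (s₂ := I'))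
  rw [sdiff_inter_self_left] at a
  rw [sdiff_inter_self_right] at b
  rw [symmDiff_def, sup_eq_union, sum_union disjoint_sdiff_sdiff,
    add_right_cancel (a.trans (h.trans b.symm)), h2]

theorem tuple_ne {ι : Type} {I : Finset ι} (w : ι → Z) (h : I.Nonempty) :
    (∑ j ∈ I, Pi.single (w j) 1 : Z → ℕ) ≠ 0 := fun e => by
  have := dg_tuple I w
  rw [e, dg_zero] at this
  exact h.card_ne_zero this.symm

omit [DecidableEq A] in
/-- A nonzero monomial of colour zero below every monomial of degree `k`. -/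
theorem zs1 (h2 : ∀ a : A, a + a = 0) (χ : Z → A) {k : ℕ} (hk : Fintype.card A < 2 ^ k)
    {a : Z → ℕ} (h : k ≤ dg a) : ∃ b c, a = b + c ∧ b ≠ 0 ∧ col χ b = 0 ∧ dg b ≤ k := by
  obtain ⟨w, c, rfl⟩ := exists_tuple h
  obtain ⟨I, I', hne, e⟩ := Fintype.exists_ne_map_eq_of_card_lt
    (fun I : Finset (Fin k) => ∑ j ∈ I, χ (w j)) (by simpa using hk)
  refine ⟨∑ j ∈ symmDiff I I', Pi.single (w j) 1,
    ∑ j ∈ (symmDiff I I')ᶜ, Pi.single (w j) 1 + c, ?_, tuple_ne w ?_, ?_, ?_⟩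
  · rw [← add_assoc, sum_add_sum_compl]
  · exact nonempty_iff_ne_empty.2 fun e => hne (symmDiff_eq_bot.1 e)
  · rw [col_tuple, sum_symm h2 e]
  · rw [dg_tuple]; simpa using card_le_univ (symmDiff I I')

/-- Three disjoint parts of equal colour, at most one of them empty. -/
theorem zs3 (h2 : ∀ a : A, a + a = 0) (χ : Z → A) {k : ℕ} (hk : Fintype.card A * 2 < 2 ^ k)
    {a : Z → ℕ} (h : k ≤ dg a) : ∃ b0 b1 b2, b0 + b1 + b2 ≤ a ∧ b1 ≠ 0 ∧ b2 ≠ 0 ∧
      col χ b0 = col χ b1 ∧ col χ b2 = col χ b1 := by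
  obtain ⟨w, c, rfl⟩ := exists_tuple h
  obtain ⟨y, -, hy⟩ := exists_lt_card_fiber_of_mul_lt_card_of_maps_to
    (s := (univ : Finset (Finset (Fin k)))) (t := (univ : Finset A))
    (f := fun I => ∑ j ∈ I, χ (w j)) (n := 2) (fun _ _ => mem_univ _) (by simpa using hk)
  obtain ⟨I1, I2, I3, m1, m2, m3, n12, n13, n23⟩ := two_lt_card_iff.1 hy
  simp only [mem_filter, mem_univ, true_and] at m1 m2 m3
  have z1 := sum_symm h2 (m1.trans m2.symm)
  have z2 := sum_symm h2 (m1.trans m3.symm)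
  have p1 : symmDiff I1 I2 ≠ ∅ := fun e => n12 (symmDiff_eq_bot.1 e)
  have p2 : symmDiff I1 I3 ≠ ∅ := fun e => n13 (symmDiff_eq_bot.1 e)
  have p3 : symmDiff I1 I2 ≠ symmDiff I1 I3 := fun e => n23 (symmDiff_right_injective I1 e)
  generalize symmDiff I1 I2 = P at z1 p1 p3
  generalize symmDiff I1 I3 = Q at z2 p2 p3
  let t : Finset (Fin k) → Z → ℕ := fun I => ∑ j ∈ I, Pi.single (w j) 1
  have c1 : col χ (t (P \ Q)) = col χ (t (P ∩ Q)) := by
    refine eq_of_add h2 ?_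
    rw [col_tuple, col_tuple, ← sdiff_inter_self_left, sum_sdiff inter_subset_left, z1]
  have c2 : col χ (t (Q \ P)) = col χ (t (P ∩ Q)) := by
    refine eq_of_add h2 ?_
    rw [col_tuple, col_tuple, ← sdiff_inter_self_right, sum_sdiff inter_subset_right, z2]
  have le : t (P ∩ Q) + t (P \ Q) + t (Q \ P) ≤ ∑ j, Pi.single (w j) 1 + c := by
    refine le_trans ?_ le_self_add
    simp only [t]
    rw [← sum_union (disjoint_sdiff_inter P Q).symm, ← sum_union]
    · exact sum_le_sum_of_subset (subset_univ _)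
    · rw [disjoint_left]
      intro j hj hj'
      simp only [mem_union, mem_inter, mem_sdiff] at hj hj'
      tauto
  by_cases e0 : P ∩ Q = ∅
  · refine ⟨_, _, _, le, tuple_ne w ?_, tuple_ne w ?_, c1.symm, c2.trans c1.symm⟩
    · rw [← sdiff_inter_self_left, e0, sdiff_empty]; exact nonempty_iff_ne_empty.2 p1
    · rw [← sdiff_inter_self_right, e0, sdiff_empty]; exact nonempty_iff_ne_empty.2 p2
  · have n0 := tuple_ne w (nonempty_iff_ne_empty.2 e0)
    by_cases e1 : P \ Q = ∅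
    · refine ⟨t (P \ Q), t (P ∩ Q), t (Q \ P), by rwa [add_comm (t (P \ Q))], n0, tuple_ne w ?_,
        c1, c2⟩
      exact nonempty_iff_ne_empty.2 fun e2 => p3
        (Subset.antisymm (sdiff_eq_empty_iff_subset.1 e1) (sdiff_eq_empty_iff_subset.1 e2))
    · refine ⟨t (Q \ P), t (P ∩ Q), t (P \ Q), ?_, n0, tuple_ne w (nonempty_iff_ne_empty.2 e1),
        c2, c1⟩
      rwa [add_assoc, add_comm]

/-- Sets of `k` letters with no nonempty subset of colour zero. -/
def Fr (χ : Z → A) (k : ℕ) : Finset (Finset Z) :=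
  univ.filter fun B => B.card = k ∧ ∀ I ⊆ B, I.Nonempty → ∑ z ∈ I, χ z ≠ 0

omit [Fintype A] in
theorem fr_step (h2 : ∀ a : A, a + a = 0) (χ : Z → A) {t0 : ℕ}
    (ht : ∀ a, (univ.filter fun z => χ z = a).card ≤ t0) (k : ℕ) :
    (Fr χ k).card * (Fintype.card Z - 2 ^ k * t0) ≤ (Fr χ (k + 1)).card * (k + 1) := by
  refine card_mul_le_card_mul (fun B B' => B ⊆ B') (fun B hB => ?_) fun B' hB' => ?_
  · obtain ⟨b1, b2⟩ := (mem_filter.1 hB).2
    let Sm : Finset A := B.powerset.image fun I => ∑ z ∈ I, χ z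
    let bad : Finset Z := univ.filter fun z => χ z ∈ Sm
    have hb : bad.card ≤ 2 ^ k * t0 := by
      have : bad ⊆ Sm.biUnion fun a => univ.filter fun z => χ z = a := fun z hz =>
        mem_biUnion.2 ⟨_, (mem_filter.1 hz).2, by simp⟩
      refine (card_le_card this).trans ((card_biUnion_le_card_mul _ _ _ fun a _ => ht a).trans ?_)
      exact Nat.mul_le_mul_right _ (card_image_le.trans (by rw [card_powerset, b1]))
    have nb : ∀ z ∈ badᶜ, z ∉ B := fun z hz hz' => mem_compl.1 hz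
      (mem_filter.2 ⟨mem_univ _, mem_image.2 ⟨{z}, by simpa using hz', by simp⟩⟩)
    refine le_trans (b := badᶜ.card) (by rw [card_compl]; omega) ?_
    refine card_le_card_of_injOn (fun z => insert z B) (fun z hz => ?_) fun z hz z' _ e => ?_
    · have hz : z ∈ badᶜ := hz
      refine mem_coe.2 ((mem_bipartiteAbove _).2 ⟨mem_filter.2 ⟨mem_univ _, ?_, ?_⟩,
        subset_insert _ _⟩)
      · rw [card_insert_of_notMem (nb z hz), b1]
      · intro I hI hn e
        by_cases hz' : z ∈ I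
        · rw [← add_sum_erase _ _ hz'] at e
          exact mem_compl.1 hz (mem_filter.2 ⟨mem_univ _, mem_image.2
            ⟨I.erase z, mem_powerset.2 (subset_insert_iff.1 hI), (eq_of_add h2 e).symm⟩⟩)
        · exact b2 I ((subset_insert_iff_of_notMem hz').1 hI) hn e
    · have : z ∈ insert z' B := by
        have e : insert z B = insert z' B := e
        rw [← e]; exact mem_insert_self _ _
      exact (mem_insert.1 this).resolve_right (nb z hz)
  · have b1 := (mem_filter.1 hB').2.1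
    refine le_trans (card_le_card (t := B'.powersetCard k) fun B hB => ?_) ?_
    · obtain ⟨h, h'⟩ := (mem_bipartiteBelow _).1 hB
      exact mem_powersetCard.2 ⟨h', (mem_filter.1 h).2.1⟩
    · rw [card_powersetCard, b1, Nat.choose_succ_self_right]

omit [Fintype A] in
theorem fr_card (h2 : ∀ a : A, a + a = 0) (χ : Z → A) {t0 : ℕ}
    (ht : ∀ a, (univ.filter fun z => χ z = a).card ≤ t0) (k : ℕ) :
    ∏ i ∈ range k, (Fintype.card Z - 2 ^ i * t0) ≤ (Fr χ k).card * k.factorial := by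
  induction k with
  | zero =>
    have : ∅ ∈ Fr χ 0 := mem_filter.2 ⟨mem_univ _, rfl, fun I hI hn =>
      absurd (subset_empty.1 hI) hn.ne_empty⟩
    simpa using card_pos.2 ⟨_, this⟩
  | succ k ih =>
    rw [prod_range_succ, Nat.factorial_succ, ← mul_assoc]
    calc _ ≤ (Fr χ k).card * k.factorial * (Fintype.card Z - 2 ^ k * t0) :=
          Nat.mul_le_mul_right _ ih
      _ = (Fr χ k).card * (Fintype.card Z - 2 ^ k * t0) * k.factorial := by ring
      _ ≤ _ := Nat.mul_le_mul_right _ (fr_step h2 χ ht k)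

end col

end Pool.Agent.GW
end

-- part Pool.Agent.Lib.MP_299528_co.GW.B
section

/-! The up-set `M`, the ideal `J = M + M`, and the decomposition of every element of `J`. -/

namespace Pool.Agent.GW

open Finset

section u
variable {V F : Type} [Fintype V] [DecidableEq V] [Fintype F] [DecidableEq F]

/-- Degree in the class `v`. -/
def mm (u : V × F → ℕ) (v : V) : ℕ := ∑ f, u (v, f)

/-- Restriction to the classes in `T`. -/
def res (T : Finset V) (u : V × F → ℕ) : V × F → ℕ := fun q => if q.1 ∈ T then u q else 0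

/-- Number of disjoint pairs inside classes. -/
def ph (u : V × F → ℕ) : ℕ := ∑ v, mm u v / 2

/-- Number of missing classes in `T`. -/
def zr (T : Finset V) (u : V × F → ℕ) : ℕ := (T.filter fun v => mm u v = 0).card

omit [DecidableEq V] [DecidableEq F] in
theorem dg_eq (u : V × F → ℕ) : dg u = ∑ v, mm u v := Fintype.sum_prod_type _

omit [Fintype V] [DecidableEq V] [DecidableEq F] in
theorem mm_add (a b : V × F → ℕ) (v : V) : mm (a + b) v = mm a v + mm b v := sum_add_distrib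

omit [Fintype V] [DecidableEq V] [DecidableEq F] in
theorem mm_mono {a b : V × F → ℕ} (h : a ≤ b) (v : V) : mm a v ≤ mm b v :=
  sum_le_sum fun f _ => h (v, f)

omit [Fintype V] [DecidableEq F] in
theorem mm_res (T : Finset V) (u : V × F → ℕ) (v : V) :
    mm (res T u) v = if v ∈ T then mm u v else 0 := by
  by_cases h : v ∈ T <;> simp [mm, res, h]

omit [Fintype V] [Fintype F] [DecidableEq F] in
theorem res_le (T : Finset V) (u : V × F → ℕ) : res T u ≤ u := fun q => by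
  unfold res; split_ifs <;> simp

omit [Fintype F] [DecidableEq F] in
theorem res_compl (T : Finset V) (u : V × F → ℕ) : res T u + res Tᶜ u = u := funext fun q => by
  by_cases h : q.1 ∈ T <;> simp [res, h]

omit [DecidableEq F] in
theorem dg_res (T : Finset V) (u : V × F → ℕ) : dg (res T u) = ∑ v ∈ T, mm u v := by
  rw [dg_eq]; simp [mm_res]

omit [DecidableEq F] in
theorem dg_res_le (T : Finset V) (u : V × F → ℕ) : dg (res T u) + zr T u ≤ T.card + 2 * ph u := by
  rw [dg_res, zr, card_filter, card_eq_sum_ones, ← sum_add_distrib]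
  calc _ ≤ ∑ v ∈ T, (1 + 2 * (mm u v / 2)) := sum_le_sum fun v _ => by split_ifs <;> omega
    _ ≤ _ := by
      rw [sum_add_distrib, ← mul_sum]
      exact Nat.add_le_add_left (Nat.mul_le_mul_left _ (sum_le_sum_of_subset (subset_univ _))) _

omit [DecidableEq F] in
theorem dg_res_eq {T : Finset V} {u : V × F → ℕ} (h : ph u = 0) :
    dg (res T u) + zr T u = T.card := by
  rw [dg_res, zr, card_filter, card_eq_sum_ones, ← sum_add_distrib]
  refine sum_congr rfl fun v _ => ?_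
  have := sum_eq_zero_iff.1 h v (mem_univ v)
  split_ifs <;> omega

omit [DecidableEq V] [DecidableEq F] in
theorem ph_mono {a b : V × F → ℕ} (h : a ≤ b) : ph a ≤ ph b :=
  sum_le_sum fun v _ => Nat.div_le_div_right (mm_mono h v)

omit [Fintype V] [DecidableEq V] [DecidableEq F] in
theorem zr_anti (T : Finset V) {a b : V × F → ℕ} (h : a ≤ b) : zr T b ≤ zr T a :=
  card_le_card fun v hv => by
    have := mm_mono h v
    simp only [mem_filter] at hv ⊢
    exact ⟨hv.1, by omega⟩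

omit [DecidableEq V] [DecidableEq F] in
theorem zr_le (T : Finset V) (u : V × F → ℕ) : zr T u ≤ zr univ u :=
  card_le_card (filter_subset_filter _ (subset_univ _))

theorem sq_step {u : V × F → ℕ} (h : 1 ≤ ph u) : ∃ q c, u = q + c ∧ (∃ v, 2 ≤ mm q v) ∧
    dg q = 2 ∧ ph c + 1 = ph u ∧ zr univ c ≤ zr univ u + 1 := by
  obtain ⟨v, -, hv⟩ := exists_ne_zero_of_sum_ne_zero (Nat.one_le_iff_ne_zero.1 h)
  obtain ⟨q, c, e, hq⟩ := exists_split (k := 2) (a := res {v} u) (by rw [dg_res]; simp; omega)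
  have z : ∀ v' ≠ v, mm q v' = 0 := fun v' h' => by
    have := mm_res {v} u v'
    rw [e, mm_add, if_neg (by simpa using h')] at this
    omega
  have t : mm q v = 2 := by
    rw [← hq, dg_eq, sum_eq_single v (fun v' _ h' => z v' h') (by simp)]
  have e' : u = q + (c + res {v}ᶜ u) := by rw [← add_assoc, ← e, res_compl]
  generalize c + res {v}ᶜ u = c' at e'
  subst e'
  refine ⟨q, c', rfl, ⟨v, t.ge⟩, hq, ?_, ?_⟩
  · unfold ph
    rw [← add_sum_erase _ _ (mem_univ v), ← add_sum_erase _ _ (mem_univ v), mm_add, t,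
      sum_congr rfl fun v' h' => show mm (q + c') v' / 2 = mm c' v' / 2 by
        rw [mm_add, z v' (ne_of_mem_erase h'), zero_add]]
    omega
  · refine le_trans (card_le_card fun v' h' => ?_) (card_insert_le v _)
    by_cases e : v' = v
    · simp [e]
    · refine mem_insert_of_mem ?_
      simp only [mem_filter, mem_univ, true_and] at h' ⊢
      rw [mm_add, z v' e, h']

end u

/-- The resource design. -/
structure Des (A V : Type) [Fintype V] (r : ℕ) where
  n : ℕ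
  μ : ℕ
  L : ℕ
  R : Finset V
  st : A → Fin n → Finset V
  hn : 8 * r + 4 ≤ n
  hμ : 12 * r + 5 ≤ μ
  hL : 2 * μ < L
  cardR : R.card = L
  cardV : Fintype.card V + 4 * r = 2 * L
  sub : ∀ σ j, st σ j ⊆ R
  big : ∀ σ j, μ < (st σ j).card
  small : ∀ σ j, (st σ j).card + μ ≤ L
  disj : ∀ σ j j', j ≠ j' → ∀ v ∈ st σ j, v ∉ st σ j'
  meet : ∀ σ σ' j j', σ ≠ σ' → ∃ v, v ∈ st σ j ∧ v ∈ st σ' j'

section main
variable {A Z V F : Type} [AddCommGroup A] [Fintype A] [DecidableEq A] [Fintype Z] [DecidableEq Z]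
  [Fintype V] [DecidableEq V] [Fintype F] [DecidableEq F] {r : ℕ} (E : Des A V r) (χ : Z → A)

/-- The up-set `M`. -/
def InM (x : (Z → ℕ) × (V × F → ℕ)) : Prop :=
  (∃ v, 2 ≤ mm x.2 v) ∨ (∃ b, b ≠ 0 ∧ b ≤ x.1 ∧ ∃ j, ∀ v ∈ E.st (col χ b) j, mm x.2 v ≠ 0) ∨
    (∃ b, b ≠ 0 ∧ b ≤ x.1 ∧ col χ b = 0) ∨ zr E.R x.2 ≤ E.μ

def InJ (y : (Z → ℕ) × (V × F → ℕ)) : Prop := ∃ a b, InM E χ a ∧ InM E χ b ∧ a + b ≤ y

def wt (x : (Z → ℕ) × (V × F → ℕ)) : ℕ := 4 * dg x.1 + dg x.2

/-- The elements of the semigroup outside `J`. -/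
def InG (x : (Z → ℕ) × (V × F → ℕ)) : Prop :=
  InM E χ x ∧ (wt x < E.L ∨ (x.1 = 0 ∧ ∀ v, mm x.2 v = if v ∈ E.R then 1 else 0) ∨
    (dg x.1 = r ∧ ∀ v, mm x.2 v = if v ∈ E.Rᶜ then 1 else 0))

def Dec (y : (Z → ℕ) × (V × F → ℕ)) : Prop :=
  ∃ p q, p + q = y ∧ InG E χ p ∧ (InG E χ q ∨ InJ E χ q)

variable {E χ}

omit [Fintype A] [DecidableEq A] [DecidableEq Z] [DecidableEq V] [DecidableEq F] in
theorem InM.mono {x y : (Z → ℕ) × (V × F → ℕ)} (h : InM E χ x) (k : x ≤ y) : InM E χ y := by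
  rcases h with ⟨v, h⟩ | ⟨b, h0, h1, j, h⟩ | ⟨b, h0, h1, h⟩ | h
  · exact .inl ⟨v, h.trans (mm_mono k.2 v)⟩
  · refine .inr (.inl ⟨b, h0, h1.trans k.1, j, fun v hv => ?_⟩)
    have := h v hv
    have := mm_mono k.2 v
    omega
  · exact .inr (.inr (.inl ⟨b, h0, h1.trans k.1, h⟩))
  · exact .inr (.inr (.inr ((zr_anti _ k.2).trans h)))

omit [Fintype A] [DecidableEq A] [DecidableEq Z] [DecidableEq V] [DecidableEq F] in
theorem InM.ne {x : (Z → ℕ) × (V × F → ℕ)} (h : InM E χ x) : x ≠ 0 := by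
  rintro rfl
  rcases h with ⟨v, h⟩ | ⟨b, h0, h1, -⟩ | ⟨b, h0, h1, -⟩ | h
  · simp [mm] at h
  · exact h0 (le_antisymm h1 bot_le)
  · exact h0 (le_antisymm h1 bot_le)
  · have := E.hL
    simp [zr, mm, E.cardR] at h
    omega

omit [Fintype A] [DecidableEq A] [DecidableEq Z] [DecidableEq F] in
theorem of3 {g1 g2 g3 y : (Z → ℕ) × (V × F → ℕ)} (h1 : InM E χ g1) (h2 : InM E χ g2)
    (h3 : InM E χ g3) (h : g1 + g2 + g3 ≤ y) (w : wt g1 < E.L) : Dec E χ y := by
  obtain ⟨c, rfl⟩ := exists_add_of_le h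
  exact ⟨g1, g2 + g3 + c, by simp only [add_assoc], ⟨h1, .inl w⟩, .inr ⟨g2, g3, h2, h3, le_self_add⟩⟩

omit [Fintype A] [DecidableEq A] [DecidableEq Z] [DecidableEq F] in
theorem InM.shrink {x : (Z → ℕ) × (V × F → ℕ)} (h : InM E χ x) :
    ∃ T : Finset V, T.card + E.μ ≤ E.L ∧ InM E χ (x.1, res T x.2) := by
  have hL := E.hL
  have hμ := E.hμ
  rcases h with ⟨v, h⟩ | ⟨b, h0, h1, j, h⟩ | ⟨b, h0, h1, h⟩ | h
  · exact ⟨{v}, by rw [card_singleton]; omega, .inl ⟨v, by simpa [mm_res] using h⟩⟩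
  · refine ⟨_, E.small (col χ b) j, .inr (.inl ⟨b, h0, h1, j, fun v hv => ?_⟩)⟩
    simpa [mm_res, hv] using h v hv
  · exact ⟨∅, by rw [card_empty]; omega, .inr (.inr (.inl ⟨b, h0, h1, h⟩))⟩
  · have c := card_filter_add_card_filter_not (s := E.R) fun v => mm x.2 v = 0
    rw [E.cardR] at c
    obtain ⟨T, t1, t2⟩ := exists_subset_card_eq (s := E.R.filter fun v => ¬ mm x.2 v = 0)
      (n := E.L - E.μ) (by unfold zr at h; omega)
    refine ⟨T, by omega, .inr (.inr (.inr ?_))⟩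
    refine le_trans (card_le_card (t := E.R \ T) fun v hv => ?_) ?_
    · obtain ⟨a, b⟩ := mem_filter.1 hv
      refine mem_sdiff.2 ⟨a, fun hT => (mem_filter.1 (t1 hT)).2 ?_⟩
      simpa [mm_res, hT] using b
    · rw [card_sdiff_of_subset (t1.trans (filter_subset _ _)), E.cardR]; omega

omit [Fintype A] [DecidableEq A] [DecidableEq Z] in
theorem dec_low {y : (Z → ℕ) × (V × F → ℕ)} (h : InJ E χ y) (hz : dg y.1 < 3 * r)
    (hp : ph y.2 ≤ 2) (hw : wt y + 2 ≤ 2 * E.L) : Dec E χ y := by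
  obtain ⟨a, b, ha, hb, k⟩ := h
  obtain ⟨c, rfl⟩ := exists_add_of_le k
  obtain ⟨T, t1, t2⟩ := ha.shrink
  obtain ⟨T', t1', t2'⟩ := hb.shrink
  have hμ := E.hμ
  simp only [Prod.fst_add, Prod.snd_add, wt, dg_add] at hz hp hw
  have p1 := dg_res_le T a.2
  have p2 := dg_res_le T' b.2
  have q1 : ph a.2 ≤ ph (a.2 + b.2 + c.2) := ph_mono (le_self_add.trans le_self_add)
  have q2 : ph b.2 ≤ ph (a.2 + b.2 + c.2) := ph_mono (le_add_self.trans le_self_add)
  have d1 := congrArg dg (res_compl T a.2)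
  have d2 := congrArg dg (res_compl T' b.2)
  rw [dg_add] at d1 d2
  obtain ⟨q, q', e, hq⟩ := exists_split (a := res Tᶜ a.2 + res T'ᶜ b.2 + c.2)
    (k := min (dg (res Tᶜ a.2 + res T'ᶜ b.2 + c.2))
      (E.L - 1 - (4 * (dg a.1 + dg c.1) + dg (res T a.2)))) (min_le_left _ _)
  have d3 := congrArg dg e
  simp only [dg_add] at d3 hq
  refine ⟨(a.1 + c.1, res T a.2 + q), (b.1, res T' b.2 + q'), ?_,
    ⟨t2.mono ⟨le_self_add, le_self_add⟩, .inl ?_⟩,
    .inl ⟨t2'.mono ⟨le_rfl, le_self_add⟩, .inl ?_⟩⟩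
  · refine Prod.ext (add_right_comm _ _ _) ?_
    change res T a.2 + q + (res T' b.2 + q') = a.2 + b.2 + c.2
    rw [add_add_add_comm, ← e]
    conv_rhs => rw [← res_compl T a.2, ← res_compl T' b.2]
    abel
  · simp only [wt, dg_add]; omega
  · simp only [wt, dg_add]; omega

omit [Fintype A] [DecidableEq A] [Fintype Z] [DecidableEq Z] [DecidableEq F] [AddCommGroup A] in
theorem three_stars (σ : A) {u : V × F → ℕ} (h : zr univ u ≤ 8 * r + 1) :
    ∃ j1 j2 j3 : Fin E.n, j1 ≠ j2 ∧ j1 ≠ j3 ∧ j2 ≠ j3 ∧ (∀ v ∈ E.st σ j1, mm u v ≠ 0) ∧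
      (∀ v ∈ E.st σ j2, mm u v ≠ 0) ∧ ∀ v ∈ E.st σ j3, mm u v ≠ 0 := by
  have c := card_filter_add_card_filter_not (s := (univ : Finset (Fin E.n)))
    fun j => ∀ v ∈ E.st σ j, mm u v ≠ 0
  have b : (univ.filter fun j => ¬ ∀ v ∈ E.st σ j, mm u v ≠ 0).card ≤ zr univ u := by
    refine card_le_card_of_forall_subsingleton (fun j v => v ∈ E.st σ j) (fun j hj => ?_)
      fun v _ j hj j' hj' => ?_
    · have := (mem_filter.1 hj).2
      push Not at this
      obtain ⟨v, a, b⟩ := this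
      exact ⟨v, mem_filter.2 ⟨mem_univ _, b⟩, a⟩
    · by_contra e
      exact E.disj σ j j' e v hj.2 hj'.2
  have := E.hn
  rw [card_univ, Fintype.card_fin] at c
  obtain ⟨j1, j2, j3, m1, m2, m3, n12, n13, n23⟩ := two_lt_card_iff.1
    (show 2 < (univ.filter fun j => ∀ v ∈ E.st σ j, mm u v ≠ 0).card by omega)
  exact ⟨j1, j2, j3, n12, n13, n23, (mem_filter.1 m1).2, (mem_filter.1 m2).2, (mem_filter.1 m3).2⟩

omit [DecidableEq F] in
theorem dec_many (h2 : ∀ a : A, a + a = 0) (hA : Fintype.card A * 2 = 2 ^ r)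
    {y : (Z → ℕ) × (V × F → ℕ)} (hz : dg y.1 < 3 * r) (hz' : r + 1 ≤ dg y.1) (hp : ph y.2 ≤ 2)
    (hD : zr univ y.2 ≤ 8 * r + 1) : Dec E χ y := by
  have hμ := E.hμ
  have hL := E.hL
  obtain ⟨b0, b1, b2, le, n1, n2, c0, c2⟩ := zs3 h2 χ
    (hA ▸ Nat.pow_lt_pow_right (by norm_num) r.lt_succ_self) hz'
  have d := dg_mono le
  rw [dg_add, dg_add] at d
  by_cases n0 : b0 = 0
  · rw [n0, col_zero] at c0
    rw [n0, zero_add] at le
    refine of3 (g1 := (b1, 0)) (g2 := (b2, 0)) (g3 := (0, y.2))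
      (.inr (.inr (.inl ⟨b1, n1, le_rfl, c0.symm⟩)))
      (.inr (.inr (.inl ⟨b2, n2, le_rfl, c2.trans c0.symm⟩)))
      (.inr (.inr (.inr ((zr_le _ _).trans (hD.trans (by omega)))))) ⟨by simpa using le, by simp⟩ ?_
    simp only [wt, dg_zero]; omega
  · obtain ⟨j0, j1, j2, a01, a02, a12, s0, s1, s2⟩ := three_stars (E := E) (col χ b1) hD
    refine of3 (g1 := (b0, res (E.st (col χ b1) j0) y.2)) (g2 := (b1, res (E.st (col χ b1) j1) y.2))
      (g3 := (b2, res (E.st (col χ b1) j2) y.2))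
      (.inr (.inl ⟨b0, n0, le_rfl, j0, fun v hv => ?_⟩))
      (.inr (.inl ⟨b1, n1, le_rfl, j1, fun v hv => ?_⟩))
      (.inr (.inl ⟨b2, n2, le_rfl, j2, fun v hv => ?_⟩)) ⟨le, fun q => ?_⟩ ?_
    · rw [c0] at hv; simpa [mm_res, hv] using s0 v hv
    · simpa [mm_res, hv] using s1 v hv
    · rw [c2] at hv; simpa [mm_res, hv] using s2 v hv
    · have e1 := E.disj (col χ b1) _ _ a01 q.1
      have e2 := E.disj (col χ b1) _ _ a02 q.1
      have e3 := E.disj (col χ b1) _ _ a12 q.1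
      simp only [Prod.snd_add, Pi.add_apply, res]
      split_ifs <;> first | omega | tauto
    · have := dg_res_le (E.st (col χ b1) j0) y.2
      have := E.small (col χ b1) j0
      simp only [wt]; omega

omit [DecidableEq A] in
theorem dec_top (h2 : ∀ a : A, a + a = 0) (hA : Fintype.card A * 2 = 2 ^ r)
    {y : (Z → ℕ) × (V × F → ℕ)} (hz : dg y.1 = r) (hD : zr univ y.2 ≤ 8 * r + 1) :
    Dec E χ y := by
  have hμ := E.hμ
  have hL := E.hL
  have hA' : Fintype.card A < 2 ^ r := by have := Fintype.card_pos (α := A); omega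
  obtain ⟨b, c, e, n0, c0, d⟩ := zs1 h2 χ hA' hz.ge
  by_cases hp : ph y.2 = 0
  · have one : ∀ T : Finset V, zr T y.2 = 0 → ∀ v, mm (res T y.2) v = if v ∈ T then 1 else 0 := by
      intro T hT v
      rw [mm_res]
      split_ifs with hv
      · have a := sum_eq_zero_iff.1 hp v (mem_univ v)
        have b := filter_eq_empty_iff.1 (card_eq_zero.1 hT) hv
        omega
      · rfl
    have d1 := dg_res_eq (T := E.R) hp
    have d2 := dg_res_eq (T := E.Rᶜ) hp
    have cV := E.cardV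
    have cR := card_le_univ E.R
    rw [card_compl] at d2
    rw [E.cardR] at d1 d2 cR
    refine ⟨(0, res E.R y.2), (y.1, res E.Rᶜ y.2), Prod.ext (zero_add _) (res_compl _ _),
      ⟨.inr (.inr (.inr ?_)), ?_⟩, .inl ⟨.inr (.inr (.inl ⟨b, n0, e ▸ le_self_add, c0⟩)), ?_⟩⟩
    · refine le_trans (card_le_card fun v hv => ?_) ((zr_le E.R y.2).trans (hD.trans (by omega)))
      obtain ⟨a, b⟩ := mem_filter.1 hv
      exact mem_filter.2 ⟨a, by simpa [mm_res, a] using b⟩
    · by_cases k : zr E.R y.2 = 0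
      · exact .inr (.inl ⟨rfl, one _ k⟩)
      · left; simp only [wt, dg_zero]; omega
    · by_cases k : zr E.Rᶜ y.2 = 0
      · exact .inr (.inr ⟨hz, one _ k⟩)
      · left; simp only [wt]; omega
  · obtain ⟨q, c', e', s, -, -, z⟩ := sq_step (Nat.one_le_iff_ne_zero.2 hp)
    refine of3 (g1 := (b, 0)) (g2 := (0, q)) (g3 := (0, c'))
      (.inr (.inr (.inl ⟨b, n0, le_rfl, c0⟩))) (.inl s)
      (.inr (.inr (.inr ((zr_le _ _).trans (z.trans (by omega)))))) ⟨?_, ?_⟩ ?_
    · simp [e]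
    · simp [e']
    · simp only [wt, dg_zero]; omega

theorem dec (h2 : ∀ a : A, a + a = 0) (hA : Fintype.card A * 2 = 2 ^ r)
    {y : (Z → ℕ) × (V × F → ℕ)} (h : InJ E χ y) : Dec E χ y := by
  have hμ := E.hμ
  have hL := E.hL
  have hA' : Fintype.card A < 2 ^ r := by have := Fintype.card_pos (α := A); omega
  by_cases hz : 3 * r ≤ dg y.1
  · obtain ⟨b1, c1, e1, n1, z1, d1⟩ := zs1 h2 χ hA' (a := y.1) (by omega)
    rw [e1, dg_add] at hz
    obtain ⟨b2, c2, e2, n2, z2, d2⟩ := zs1 h2 χ hA' (a := c1) (by omega)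
    rw [e2, dg_add] at hz
    obtain ⟨b3, c3, e3, n3, z3, d3⟩ := zs1 h2 χ hA' (a := c2) (by omega)
    refine of3 (g1 := (b1, 0)) (g2 := (b2, 0)) (g3 := (b3, 0))
      (.inr (.inr (.inl ⟨b1, n1, le_rfl, z1⟩))) (.inr (.inr (.inl ⟨b2, n2, le_rfl, z2⟩)))
      (.inr (.inr (.inl ⟨b3, n3, le_rfl, z3⟩))) ⟨?_, by simp⟩ ?_
    · simp [e1, e2, e3, add_assoc]
    · simp only [wt, dg_zero]; omega
  by_cases hp : 3 ≤ ph y.2
  · obtain ⟨q1, c1, e1, s1, d1, p1, -⟩ := sq_step (u := y.2) (by omega)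
    obtain ⟨q2, c2, e2, s2, -, p2, -⟩ := sq_step (u := c1) (by omega)
    obtain ⟨q3, c3, e3, s3, -, -, -⟩ := sq_step (u := c2) (by omega)
    refine of3 (g1 := (0, q1)) (g2 := (0, q2)) (g3 := (0, q3)) (.inl s1) (.inl s2) (.inl s3)
      ⟨by simp, ?_⟩ ?_
    · simp [e1, e2, e3, add_assoc]
    · simp only [wt, dg_zero]; omega
  by_cases hw : wt y + 2 ≤ 2 * E.L
  · exact dec_low h (by omega) (by omega) hw
  have d := dg_res_le univ y.2
  have cV := E.cardV
  rw [dg_res, ← dg_eq, card_univ] at d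
  unfold wt at hw
  rcases lt_trichotomy (dg y.1) r with k | k | k
  · obtain ⟨q1, c1, e1, s1, d1, p1, z1⟩ := sq_step (u := y.2) (by omega)
    obtain ⟨q2, c2, e2, s2, -, -, z2⟩ := sq_step (u := c1) (by omega)
    refine of3 (g1 := (0, q1)) (g2 := (0, q2)) (g3 := (0, c2)) (.inl s1) (.inl s2)
      (.inr (.inr (.inr ((zr_le _ _).trans (z2.trans (by omega)))))) ⟨by simp, ?_⟩ ?_
    · simp [e1, e2, add_assoc]
    · simp only [wt, dg_zero]; omega
  · exact dec_top h2 hA k (by omega)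
  · exact dec_many h2 hA (by omega) k (by omega) (by omega)

end main

end Pool.Agent.GW
end

-- part Pool.Agent.Lib.MP_299528_co.GW.C
section

/-! The semigroup, its gaps, and the counts. -/

namespace Pool.Agent.GW

open Finset

/-- The generalized Wilf inequality in every dimension. -/
def All : Prop := ∀ (d : ℕ) (S : Set (Fin d → ℕ)), (0 : Fin d → ℕ) ∈ S →
  (∀ x ∈ S, ∀ y ∈ S, x + y ∈ S) → Sᶜ.Finite → Ineq d S

/-- The inequality in all dimensions at least `D`. -/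
def AllD (D : ℕ) : Prop := ∀ (d : ℕ), D ≤ d → ∀ S : Set (Fin d → ℕ), (0 : Fin d → ℕ) ∈ S →
  (∀ x ∈ S, ∀ y ∈ S, x + y ∈ S) → Sᶜ.Finite → Ineq d S

theorem AllD.prod {D : ℕ} (H : AllD D) {Z U : Type} [Fintype Z] [Fintype U]
    (hD : D ≤ Fintype.card Z) (S : Set ((Z → ℕ) × (U → ℕ))) (h0 : 0 ∈ S)
    (ha : ∀ x ∈ S, ∀ y ∈ S, x + y ∈ S) (hf : Sᶜ.Finite) :
    Ineq (Fintype.card (Z ⊕ U)) S := by
  let e := Fintype.equivFin (Z ⊕ U)
  let φ : (Fin (Fintype.card (Z ⊕ U)) → ℕ) ≃+ (Z → ℕ) × (U → ℕ) :=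
    { toFun := fun x => (fun z => x (e (.inl z)), fun u => x (e (.inr u)))
      invFun := fun y i => Sum.elim y.1 y.2 (e.symm i)
      left_inv := fun x => funext fun i => by
        obtain ⟨j, rfl⟩ := e.surjective i
        cases j <;> simp
      right_inv := fun y => by ext <;> simp
      map_add' := fun _ _ => rfl }
  refine transport φ (fun x y => ⟨fun h i => ?_, fun h => Prod.le_def.2
    ⟨fun _ => h _, fun _ => h _⟩⟩) (H _ (hD.trans (by simp)) _ ?_ (fun x hx y hy => ?_) ?_)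
  · obtain ⟨j, rfl⟩ := e.surjective i
    cases j with
    | inl z => exact h.1 z
    | inr u => exact h.2 u
  · rwa [Set.mem_preimage, map_zero]
  · rw [Set.mem_preimage, map_add]; exact ha _ hx _ hy
  · rw [← Set.preimage_compl]; exact hf.preimage φ.injective.injOn

section u
variable {V F : Type} [Fintype V] [DecidableEq V] [Fintype F] [DecidableEq F]

theorem units_le (T : Finset V) : ∃ W : Finset (V × F → ℕ), W.card ≤ Fintype.card F ^ T.card ∧
    ∀ u, (∀ v, mm u v = if v ∈ T then 1 else 0) → u ∈ W := by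
  refine ⟨univ.image fun g : T → F => fun q =>
    if h : q.1 ∈ T then (Pi.single (g ⟨q.1, h⟩) 1 : F → ℕ) q.2 else 0, ?_, fun u hu => ?_⟩
  · exact card_image_le.trans (by simp)
  · have : ∀ v : T, ∃ f, (fun f => u (v.1, f)) = Pi.single f 1 := fun v =>
      eq_single ((hu v.1).trans (if_pos v.2))
    choose g hg using this
    refine mem_image.2 ⟨g, mem_univ _, funext fun q => ?_⟩
    split_ifs with h
    · exact (congrFun (hg ⟨q.1, h⟩) q.2).symm
    · exact (sum_eq_zero_iff.1 ((hu q.1).trans (if_neg h)) q.2 (mem_univ _)).symm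

theorem units_ge : ∃ W : Finset (V × F → ℕ), W.card = Fintype.card F ^ Fintype.card V ∧
    ∀ u ∈ W, ∀ v, mm u v = 1 := by
  refine ⟨univ.image fun g : V → F => fun q => (Pi.single (g q.1) 1 : F → ℕ) q.2, ?_,
    fun u hu v => ?_⟩
  · rw [card_image_of_injective _ fun g g' h => funext fun v => ?_]
    · simp
    · have := congrFun h (v, g v)
      by_contra e
      simp [Pi.single_eq_of_ne e] at this
  · obtain ⟨g, -, rfl⟩ := mem_image.1 hu
    exact dg_single (g v)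

end u

section main
variable {A Z V F : Type} [AddCommGroup A] [Fintype A] [DecidableEq A] [Fintype Z] [DecidableEq Z]
  [Fintype V] [DecidableEq V] [Fintype F] [DecidableEq F] {r : ℕ} {E : Des A V r} {χ : Z → A}

omit [Fintype A] [DecidableEq A] in
theorem inJ_of_four (h2 : ∀ a : A, a + a = 0) {x : (Z → ℕ) × (V × F → ℕ)}
    (h : ¬ x ≤ (fun _ => 3, fun _ => 3)) : InJ E χ x := by
  rw [Prod.le_def, not_and_or, Pi.le_def, Pi.le_def, not_forall, not_forall] at h
  rcases h with ⟨z, h⟩ | ⟨q, h⟩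
  · have m : InM E χ ((Pi.single z 1 + Pi.single z 1, 0) : (Z → ℕ) × (V × F → ℕ)) :=
      .inr (.inr (.inl ⟨_, fun e => by simpa using congrFun e z, le_rfl,
        by rw [col_add, h2]⟩))
    refine ⟨_, _, m, m, fun z' => ?_, by simp⟩
    by_cases e : z' = z
    · subst e; simp at h ⊢; omega
    · simp [e]
  · have m : InM E χ ((0, Pi.single q 2) : (Z → ℕ) × (V × F → ℕ)) :=
      .inl ⟨q.1, le_trans (by simp) (single_le_sum (f := fun f => (Pi.single q 2 : V × F → ℕ)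
        (q.1, f)) (fun _ _ => Nat.zero_le _) (mem_univ q.2))⟩
    refine ⟨_, _, m, m, by simp, fun q' => ?_⟩
    by_cases e : q' = q
    · subst e; simp at h ⊢; omega
    · simp [e]

omit [Fintype A] in
theorem fr_col {k : ℕ} {B : Finset Z} (hB : B ∈ Fr χ k) {b : Z → ℕ} (h0 : b ≠ 0)
    (h : b ≤ ∑ z ∈ B, Pi.single z 1) : col χ b ≠ 0 := by
  have h' : ∀ z, b z ≤ if z ∈ B then 1 else 0 := fun z => by
    simpa [Pi.single_apply] using h z
  have e : b = ∑ z ∈ univ.filter (fun z => b z ≠ 0), Pi.single z 1 := funext fun z => by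
    have := h' z
    by_cases e : b z = 0
    · simp [Pi.single_apply, e]
    · simp only [Finset.sum_apply, Pi.single_apply, sum_ite_eq, mem_filter, mem_univ, true_and,
        ne_eq, e, not_false_eq_true, if_true]
      split_ifs at this <;> omega
  rw [e, col_tuple χ _ fun z => z]
  refine (mem_filter.1 hB).2.2 _ (fun z hz => ?_) ?_
  · have := h' z
    have := (mem_filter.1 hz).2
    split_ifs at * with e
    · exact e
    · omega
  · obtain ⟨z, hz⟩ := Function.ne_iff.1 h0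
    exact ⟨z, mem_filter.2 ⟨mem_univ _, hz⟩⟩

omit [Fintype A] [DecidableEq F] in
theorem gap_notJ (h2 : ∀ a : A, a + a = 0) {k : ℕ} {B : Finset Z} (hB : B ∈ Fr χ k)
    {u : V × F → ℕ} (hu : ∀ v, mm u v = 1) : ¬ InJ E χ (∑ z ∈ B, Pi.single z 1, u) := by
  rintro ⟨a, b, ha, hb, k1, k2⟩
  have m : ∀ v, mm a.2 v + mm b.2 v ≤ 1 := fun v => by
    rw [← mm_add, ← hu v]; exact mm_mono k2 v
  have s24 : ∀ {a b : V × F → ℕ} {σ : A} {j : Fin E.n}, (∀ v, mm a v + mm b v ≤ 1) →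
      (∀ v ∈ E.st σ j, mm a v ≠ 0) → ¬ zr E.R b ≤ E.μ := by
    intro a b σ j m h h'
    refine absurd ((E.big σ j).trans_le (card_le_card fun v hv => ?_)) (not_lt.2 h')
    have := m v
    have := h v hv
    exact mem_filter.2 ⟨E.sub σ j hv, by omega⟩
  rcases ha with ⟨v, h⟩ | ⟨c, c0, c1, j, h⟩ | ⟨c, c0, c1, h⟩ | h
  · have := m v; omega
  · rcases hb with ⟨v, h'⟩ | ⟨c', c0', c1', j', h'⟩ | ⟨c', c0', c1', h'⟩ | h'
    · have := m v; omega
    · by_cases e : col χ c = col χ c'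
      · refine fr_col hB (b := c + c') (fun e' => c0 (le_antisymm (e' ▸ le_self_add) bot_le))
          ((add_le_add c1 c1').trans k1) ?_
        rw [col_add, e, h2]
      · obtain ⟨v, v1, v2⟩ := E.meet _ _ j j' e
        have := m v
        have := h v v1
        have := h' v v2
        omega
    · exact fr_col hB c0' (c1'.trans (le_add_self.trans k1)) h'
    · exact s24 m h h'
  · exact fr_col hB c0 (c1.trans (le_self_add.trans k1)) h
  · rcases hb with ⟨v, h'⟩ | ⟨c', c0', c1', j', h'⟩ | ⟨c', c0', c1', h'⟩ | h'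
    · have := m v; omega
    · exact s24 (fun v => by rw [add_comm]; exact m v) h' h
    · exact fr_col hB c0' (c1'.trans (le_add_self.trans k1)) h'
    · have hL := E.hL
      have : E.R ⊆ (E.R.filter fun v => mm a.2 v = 0) ∪ E.R.filter fun v => mm b.2 v = 0 := by
        intro v hv
        have := m v
        simp only [mem_union, mem_filter, hv, true_and]
        omega
      have := (card_le_card this).trans (card_union_le _ _)
      rw [E.cardR] at this
      unfold zr at h h'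
      omega

omit [Fintype A] [DecidableEq A] [DecidableEq Z] [DecidableEq F] in
theorem InG.wt_le {x : (Z → ℕ) × (V × F → ℕ)} (h : InG E χ x) : wt x ≤ E.L := by
  have cV := E.cardV
  have cR := card_le_univ E.R
  rcases h.2 with h | ⟨h, h'⟩ | ⟨h, h'⟩
  · exact h.le
  · rw [wt, h, dg_zero, dg_eq, sum_congr rfl fun v _ => h' v]
    simp [E.cardR]
  · rw [wt, h, dg_eq, sum_congr rfl fun v _ => h' v, sum_ite_mem, univ_inter, ← card_eq_sum_ones,
      card_compl, E.cardR]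
    rw [E.cardR] at cR
    omega

omit [Fintype A] [DecidableEq A] [AddCommGroup A] in
theorem low_le (L K : ℕ) (h1 : Fintype.card Z + 1 ≤ K ^ 4) (h2 : Fintype.card (V × F) + 1 ≤ K) :
    ∃ W : Finset ((Z → ℕ) × (V × F → ℕ)), W.card ≤ L * K ^ (L - 1) ∧ ∀ x, wt x < L → x ∈ W := by
  choose T t1 t2 using card_le_deg (κ := Z)
  choose T' t1' t2' using card_le_deg (κ := V × F)
  refine ⟨((range L).filter fun i => 4 * i < L).biUnion fun i => T i ×ˢ T' (L - 1 - 4 * i), ?_,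
    fun x hx => ?_⟩
  · refine (card_biUnion_le_card_mul _ _ (K ^ (L - 1)) fun i hi => ?_).trans
      (Nat.mul_le_mul_right _ ((card_filter_le _ _).trans (card_range L).le))
    have := (mem_filter.1 hi).2
    rw [card_product, show L - 1 = 4 * i + (L - 1 - 4 * i) by omega, pow_add, pow_mul,
      Nat.add_sub_cancel_left]
    exact Nat.mul_le_mul ((t1 i).trans (Nat.pow_le_pow_left h1 _))
      ((t1' _).trans (Nat.pow_le_pow_left h2 _))
  · unfold wt at hx
    exact mem_biUnion.2 ⟨dg x.1, mem_filter.2 ⟨mem_range.2 (by omega), by omega⟩,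
      mem_product.2 ⟨t2 _ _ le_rfl, t2' _ _ (by omega)⟩⟩

theorem count {D : ℕ} (H : AllD D) (hD : D ≤ Fintype.card Z) (E : Des A V r) (χ : Z → A)
    (h2 : ∀ a : A, a + a = 0) {k : ℕ}
    (hk : k + 1 = r) (hA : Fintype.card A * 2 = 2 ^ r) (K : ℕ) (k1 : Fintype.card Z + 1 ≤ K ^ 4)
    (k2 : Fintype.card (V × F) + 1 ≤ K) : ∃ c, r.factorial * c ≤ (Fintype.card Z + r) ^ r ∧
      Fintype.card Z * ((Fr χ k).card * Fintype.card F ^ Fintype.card V) ≤
        (E.L * K ^ (E.L - 1) + Fintype.card F ^ E.L + c * Fintype.card F ^ (E.L - 4 * r) + 1) ^ 2 := by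
  obtain ⟨W0, a0, b0⟩ := low_le E.L K k1 k2
  obtain ⟨W1, a1, b1⟩ := units_le (F := F) E.R
  obtain ⟨W2, a2, b2⟩ := units_le (F := F) E.Rᶜ
  obtain ⟨T, a3, b3⟩ := card_eq_deg (κ := Z) r
  obtain ⟨W, a4, b4⟩ := units_ge (V := V) (F := F)
  have cV := E.cardV
  have hL := E.hL
  have hμ := E.hμ
  refine ⟨T.card, a3, ?_⟩
  let S : Set ((Z → ℕ) × (V × F → ℕ)) := {x | x = 0 ∨ InG E χ x ∨ InJ E χ x}
  have inM : ∀ x : (Z → ℕ) × (V × F → ℕ), InG E χ x ∨ InJ E χ x → InM E χ x := fun x h =>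
    h.elim (·.1) fun ⟨a, b, ha, _, k⟩ => ha.mono (le_self_add.trans k)
  have hI : ∀ h : (Z → ℕ) × (V × F → ℕ), (Set.Iic h).Finite := fun h =>
    ((Set.finite_Iic h.1).prod (Set.finite_Iic h.2)).subset fun x hx => ⟨hx.1, hx.2⟩
  have fin : Sᶜ.Finite := (hI (fun _ => 3, fun _ => 3)).subset fun x hx => by
    by_contra e
    exact hx (.inr (.inr (inJ_of_four h2 e)))
  have I := H.prod hD S (.inl rfl) (fun x hx y hy => by
    rcases hx with rfl | hx
    · rwa [zero_add]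
    rcases hy with rfl | hy
    · rw [add_zero]; exact .inr hx
    exact .inr (.inr ⟨x, y, inM x hx, inM y hy, le_rfl⟩)) fin
  have inj : Function.Injective fun B : Finset Z => (∑ z ∈ B, Pi.single z 1 : Z → ℕ) := by
    intro B B' h
    ext z
    have := congrFun h z
    simp only [Finset.sum_apply, Pi.single_apply, sum_ite_eq] at this
    by_cases e : z ∈ B <;> by_cases e' : z ∈ B' <;> simp_all
  have := shape hI (J := {x | InJ E χ x}) (G := W0 ∪ {0} ×ˢ W1 ∪ T ×ˢ W2)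
    (X := ((Fr χ k).image fun B : Finset Z => (∑ z ∈ B, Pi.single z 1 : Z → ℕ)) ×ˢ W)
    (fun x hx => ?_) (fun x hx => .inr (.inr hx))
    (fun x ⟨a, b, ha, hb, k⟩ y h => ⟨a, b, ha, hb, k.trans h⟩) fin (fun y hy => ?_)
    (fun x hx => ?_) I
  · rw [card_product, card_image_of_injective _ inj, a4] at this
    refine le_trans (Nat.mul_le_mul_right _ (by simp)) (this.trans (Nat.pow_le_pow_left ?_ _))
    refine Nat.succ_le_succ ((card_union_le _ _).trans (Nat.add_le_add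
      ((card_union_le _ _).trans (Nat.add_le_add a0 ?_)) ?_))
    · rwa [card_product, card_singleton, one_mul, ← E.cardR]
    · rw [card_product]
      refine Nat.mul_le_mul_left _ (a2.trans_eq ?_)
      rw [card_compl, E.cardR]
      congr 1
      omega
  · rcases hx with h | h | h
    · exact .inl h
    · refine .inr (.inl ?_)
      rcases h.2 with h | ⟨h, h'⟩ | ⟨h, h'⟩
      · exact mem_union_left _ (mem_union_left _ (b0 x h))
      · exact mem_union_left _ (mem_union_right _ (mem_product.2 ⟨mem_singleton.2 h, b1 _ h'⟩))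
      · exact mem_union_right _ (mem_product.2 ⟨(b3 _).2 h, b2 _ h'⟩)
    · exact .inr (.inr h)
  · obtain ⟨p, q, e, hp, hq⟩ := dec h2 hA hy
    exact ⟨p, .inr (.inl hp), q, .inr hq, e, hp.1.ne, (inM q hq).ne⟩
  · obtain ⟨x1, x2⟩ := x
    obtain ⟨h1, hu⟩ := mem_product.1 hx
    obtain ⟨B, hB, rfl⟩ := mem_image.1 h1
    have w : wt (∑ z ∈ B, Pi.single z 1, x2) = 4 * k + Fintype.card V := by
      rw [wt, dg_tuple B fun z => z, (mem_filter.1 hB).2.1, dg_eq,
        sum_congr rfl fun v _ => b4 _ hu v]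
      simp
    rintro (h | h | h)
    · rw [h, wt, Prod.fst_zero, Prod.snd_zero, dg_zero, dg_zero] at w
      omega
    · have := h.wt_le
      omega
    · exact gap_notJ h2 hB (b4 _ hu) h

end main

theorem exists_des (A : Type) [Fintype A] [DecidableEq A] [Nonempty A] (r : ℕ) :
    ∃ (V : Type) (_ : Fintype V) (_ : DecidableEq V), Nonempty (Des A V r) := by
  let W := (A → Fin (8 * r + 4)) × Fin (12 * r + 6)
  let s : A → Fin (8 * r + 4) → Finset W := fun σ j => univ.filter fun w => w.1 σ = j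
  have big : ∀ σ j, 12 * r + 5 < (s σ j).card := fun σ j => by
    have := card_le_card_of_injOn (s := (univ : Finset (Fin (12 * r + 6)))) (t := s σ j)
      (fun i => (fun _ => j, i)) (fun i _ => by simp [s]) fun i _ i' _ h => (Prod.ext_iff.1 h).2
    rw [card_univ, Fintype.card_fin] at this
    omega
  have small : ∀ σ j, (s σ j).card + (12 * r + 5) ≤ Fintype.card W := fun σ j => by
    obtain ⟨j', hj⟩ := Fintype.exists_ne_of_one_lt_card (by simp) j
    have := big σ j'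
    have d : Disjoint (s σ j) (s σ j') := disjoint_filter.2 fun w _ a b => hj (b.symm.trans a)
    have := card_le_univ (s σ j ∪ s σ j')
    rw [card_union_of_disjoint d] at this
    omega
  have hL : 2 * (12 * r + 5) < Fintype.card W := by
    obtain ⟨σ⟩ := ‹Nonempty A›
    have := big σ ⟨0, by omega⟩
    have := small σ ⟨0, by omega⟩
    omega
  generalize hc : Fintype.card W = L at small hL
  refine ⟨W ⊕ Fin (L - 4 * r), inferInstance, inferInstance, ⟨⟨8 * r + 4, 12 * r + 5, L,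
    univ.map Function.Embedding.inl, fun σ j => (s σ j).map Function.Embedding.inl, le_rfl, le_rfl,
    hL, by rw [card_map, card_univ, hc], ?_, fun σ j => map_subset_map.2 (subset_univ _),
    fun σ j => by rw [card_map]; exact big σ j, fun σ j => by rw [card_map]; exact small σ j,
    fun σ j j' h v hv hv' => ?_, fun σ σ' j j' h => ?_⟩⟩⟩
  · rw [Fintype.card_sum, hc, Fintype.card_fin]; omega
  · obtain ⟨w, hw, rfl⟩ := mem_map.1 hv
    exact h ((mem_filter.1 hw).2.symm.trans (mem_filter.1 ((mem_map' _).1 hv')).2)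
  · refine ⟨.inl (Function.update (fun _ => j') σ j, ⟨0, by omega⟩), mem_map_of_mem _ ?_,
      mem_map_of_mem _ ?_⟩
    · simp [s]
    · simp [s, Function.update_of_ne (Ne.symm h)]

end Pool.Agent.GW
end

-- part Pool.Agent.Lib.MP_299528_co.GW.D
section

/-! The numbers: colours in a group of order `2 ^ 16` and exponent two. -/

namespace Pool.Agent.GW

open Finset

theorem num1 {C m z : ℕ} (hm : 100 * (C + 1) ≤ m) (p : 0 < z) :
    100 * (C * z + 1) ≤ z * (16 * m) := by nlinarith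

theorem num2 {x y c : ℕ} (hx : 1 ≤ x) (hy : x ^ 17 = y)
    (hc : Nat.factorial 17 * c ≤ (65536 * (7 * x) + 17) ^ 17) : 100 * c ≤ 68 * (16 ^ 68 * y) := by
  have p : 100 * (65536 * (7 * x) + 17) ≤ 701 * 65536 * x := by omega
  have q := Nat.pow_le_pow_left p 17
  rw [mul_pow, mul_pow, hy] at q
  have := (Nat.mul_le_mul_left (100 ^ 17) hc).trans q
  clear q hc hy
  norm_num [Nat.factorial] at this ⊢
  omega

theorem num3 {x y f : ℕ} (hx : 1 ≤ x) (hy : x ^ 17 = y)
    (hf : ∏ i ∈ range 16, (65536 * (7 * x) - 2 ^ i * (7 * x)) ≤ f * Nat.factorial 16) :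
    169 ^ 2 * (16 ^ 68 * y) < 100 ^ 2 * (65536 * (7 * x) * f) := by
  simp only [← Nat.sub_mul, prod_mul_distrib, prod_const, card_range] at hf
  have q := Nat.mul_le_mul_left (65536 * (7 * x)) hf
  have e : 65536 * (7 * x) * ((∏ i ∈ range 16, (65536 - 2 ^ i)) * (7 ^ 16 * x ^ 16)) =
      65536 * 7 ^ 17 * (∏ i ∈ range 16, (65536 - 2 ^ i)) * x ^ 17 := by
    generalize ∏ i ∈ range 16, (65536 - 2 ^ i) = P
    ring
  have y0 : 1 ≤ y := hy ▸ Nat.one_le_pow _ _ hx
  rw [e, ← mul_assoc, hy] at q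
  clear e hf hy
  generalize 65536 * (7 * x) * f = w at q
  norm_num [Nat.factorial, prod_range_succ] at q ⊢
  omega

theorem num4 {lo a y c w : ℕ} (a0 : 0 < a) (y0 : 0 < y) (h1 : 100 * (lo + 1) ≤ a * y)
    (h2 : 100 * c ≤ 68 * y) (h3 : 169 ^ 2 * y < 100 ^ 2 * w) :
    (lo + a * y + c * a + 1) ^ 2 < w * (a ^ 2 * y) := by
  have h4 : 100 * (lo + a * y + c * a + 1) ≤ 169 * (a * y) := by nlinarith
  refine lt_of_mul_lt_mul_left (a := 100 ^ 2) ?_ (Nat.zero_le _)
  calc 100 ^ 2 * (lo + a * y + c * a + 1) ^ 2 = (100 * (lo + a * y + c * a + 1)) ^ 2 := by ring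
    _ ≤ (169 * (a * y)) ^ 2 := Nat.pow_le_pow_left h4 2
    _ = 169 ^ 2 * y * (a ^ 2 * y) := by ring
    _ < 100 ^ 2 * w * (a ^ 2 * y) := Nat.mul_lt_mul_of_pos_right h3 (by positivity)
    _ = _ := by ring

theorem num {L N m c f : ℕ} (hL : 68 ≤ L) (hN : N + 68 = 2 * L)
    (hm : 100 * (L * (N + 2) ^ (L - 1) + 1) ≤ m)
    (hc : Nat.factorial 17 * c ≤ (65536 * (7 * m ^ 4) + 17) ^ 17)
    (hf : ∏ i ∈ range 16, (65536 * (7 * m ^ 4) - 2 ^ i * (7 * m ^ 4)) ≤ f * Nat.factorial 16) :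
    (L * ((N + 2) * (16 * m)) ^ (L - 1) + (16 * m) ^ L + c * (16 * m) ^ (L - 68) + 1) ^ 2 <
      65536 * (7 * m ^ 4) * (f * (16 * m) ^ N) := by
  have m0 : 0 < m := lt_of_lt_of_le (Nat.mul_pos (by norm_num) (Nat.succ_pos _)) hm
  have s0 : 0 < 16 * m := Nat.mul_pos (by norm_num) m0
  have l1 : L = L - 1 + 1 := by clear hm hc hf; omega
  have l2 : L = L - 68 + 68 := by clear hm hc hf; omega
  have l3 : N = (L - 68) * 2 + 68 := by clear hm hc hf; omega
  have hx : 1 ≤ m ^ 4 := Nat.one_le_pow _ _ m0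
  have hy : (m ^ 4) ^ 17 = m ^ 68 := (pow_mul m 4 17).symm
  have e0 : (16 * m) ^ L = (16 * m) ^ (L - 1) * (16 * m) := by rw [← pow_succ, ← l1]
  have e1 : (16 * m) ^ L = (16 * m) ^ (L - 68) * (16 ^ 68 * m ^ 68) := by
    rw [← mul_pow, ← pow_add, ← l2]
  have e2 : (16 * m) ^ N = ((16 * m) ^ (L - 68)) ^ 2 * (16 ^ 68 * m ^ 68) := by
    rw [← mul_pow, ← pow_mul, ← pow_add, ← l3]
  have h1 := num1 (z := (16 * m) ^ (L - 1)) hm (Nat.pow_pos s0)
  rw [← e0, e1] at h1
  rw [mul_pow (N + 2), ← mul_assoc L, e1, e2, ← mul_assoc (65536 * (7 * m ^ 4))]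
  exact num4 (Nat.pow_pos s0) (Nat.mul_pos (Nat.pow_pos (by norm_num)) (Nat.pow_pos m0)) h1
    (num2 hx hy hc) (num3 hx hy hf)

theorem not_all_of {A : Type} [AddCommGroup A] [Fintype A] [DecidableEq A]
    (h2 : ∀ a : A, a + a = 0) (hA : Fintype.card A = 65536) (D : ℕ) : ¬ AllD D := by
  intro H
  obtain ⟨V, _, _, ⟨E⟩⟩ := exists_des A 17
  have hL := E.hL
  have hμ := E.hμ
  have cV := E.cardV
  obtain ⟨m, hm, hD⟩ : ∃ m, 100 * (E.L * (Fintype.card V + 2) ^ (E.L - 1) + 1) ≤ m ∧ D ≤ m :=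
    ⟨_, le_max_left _ _, le_max_right _ _⟩
  have m0 : 100 ≤ m := by omega
  have m4 : m ≤ m ^ 4 := Nat.le_self_pow (by norm_num) m
  have cZ : Fintype.card (A × Fin (7 * m ^ 4)) = 65536 * (7 * m ^ 4) := by
    rw [Fintype.card_prod, hA, Fintype.card_fin]
  obtain ⟨c, h1, h3⟩ := count (F := Fin (16 * m)) H (by rw [cZ]; omega) E
    (Prod.fst : A × Fin (7 * m ^ 4) → A) h2
    (k := 16) rfl (by rw [hA]; norm_num) ((Fintype.card V + 2) * (16 * m))
    (by
      have : 1 ≤ m ^ 4 := Nat.one_le_pow _ _ (by omega)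
      refine le_trans ?_ (Nat.pow_le_pow_left (Nat.mul_le_mul_right _ (Nat.le_add_left 2 _)) 4)
      rw [cZ, mul_pow, mul_pow]
      omega)
    (by rw [Fintype.card_prod, Fintype.card_fin, add_mul]; omega)
  have h4 := fr_card h2 (Prod.fst : A × Fin (7 * m ^ 4) → A) (t0 := 7 * m ^ 4) (fun a => by
    refine (card_le_card_of_injOn (t := univ) Prod.snd (fun _ _ => mem_univ _)
      fun x hx y hy e => Prod.ext ?_ e).trans (by simp)
    exact (mem_filter.1 hx).2.trans (mem_filter.1 hy).2.symm) 16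
  rw [cZ] at h1 h3 h4
  rw [Fintype.card_fin] at h3
  exact absurd h3 (not_le.2 (num (by omega) (by omega) hm h1 h4))

theorem not_allD (D : ℕ) : ¬ AllD D :=
  not_all_of (A := Fin 16 → ZMod 2) (fun a => funext fun i => CharTwo.add_self_eq_zero (a i))
    (by rw [Fintype.card_fun, ZMod.card, Fintype.card_fin]; norm_num) D

theorem not_all : ¬ All := fun H => not_allD 0 fun d _ => H d

end Pool.Agent.GW
end
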